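import Mathlib
import Pool.Agent.W332.Kd.Thr2
import Pool.Agent.Q6.CI.Vizing

set_option autoImplicit false

/-!
# Edge colourings of Cayley graphs of abelian groups with a bipartition (MP_257582_lc)
-/

namespace Pool.Agent.U96.CX

open Finset
open Pool.Agent.W332.Kd
open Pool.Q11.TwoEnd (PC EC Miss)
open Pool.Q6.CI (dg vizing exists_miss)

/-- edge colourings are transported by bijections -/
theorem EC_map {V W : Type} {G : SimpleGraph V} {k : ℕ} (h : EC G k) (e : V ≃ W) :
    EC (G.map e.toEmbedding) k := by
  obtain ⟨c, hc⟩ := h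
  have hadj : ∀ x y, (G.map e.toEmbedding).Adj x y ↔ G.Adj (e.symm x) (e.symm y) := by
    intro x y
    rw [SimpleGraph.map_adj]
    constructor
    · rintro ⟨u, v, huv, rfl, rfl⟩
      simpa using huv
    · intro h
      exact ⟨_, _, h, by simp, by simp⟩
  refine ⟨fun x y => c (e.symm x) (e.symm y), ?_, ?_, ?_⟩
  · intro x y hxy
    exact hc.lt _ _ ((hadj _ _).1 hxy)
  · intro x y hxy
    exact hc.symm _ _ ((hadj _ _).1 hxy)
  · intro x y y' h1 h2 h3
    exact e.symm.injective (hc.inj _ _ _ ((hadj _ _).1 h1) ((hadj _ _).1 h2) h3)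

theorem z2 (z : ZMod 2) : z = 0 ∨ z = 1 := by
  revert z
  decide

section

variable {A : Type} [AddCommGroup A] [Fintype A]

theorem dg_cay {T : Finset A} (hT : Sy T) (v : A) : dg (cay T) v = T.card := by
  classical
  unfold dg
  have h := cay_Reg hT v
  rw [← h, Set.ncard_eq_toFinset_card']
  congr 1
  ext w
  simp

/-- Vizing for Cayley graphs -/
theorem EC_cay {T : Finset A} (hT : Sy T) {k : ℕ} (hk : T.card + 1 ≤ k) : EC (cay T) k :=
  Pool.Q6.CI.EC.mono_right (vizing fun v => (dg_cay hT v).le) hk

/-- **Class 1**: if some generator is outside a subgroup of index two, then the Cayley graph can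
be edge coloured with as many colours as the degree. -/
theorem EC_class1 (π : A →+ ZMod 2) {S : Finset A} (hS : Sy S) {s₀ : A} (hs₀ : s₀ ∈ S)
    (hπ : π s₀ = 1) : EC (cay S) S.card := by
  classical
  set S₀ := S.filter fun s => π s = 0 with hS₀
  set S₁ := S.filter fun s => ¬ π s = 0 with hS₁
  have hcard : S₀.card + S₁.card = S.card := Finset.card_filter_add_card_filter_not _
  have hsy₀ : Sy S₀ := by
    constructor
    · intro h
      exact hS.zero (mem_filter.1 h).1
    · intro a ha
      rw [hS₀, mem_filter] at ha ⊢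
      exact ⟨hS.neg a ha.1, by rw [map_neg, ha.2, neg_zero]⟩
  obtain ⟨c₀, hc₀⟩ : EC (cay S₀) (S₀.card + 1) := EC_cay hsy₀ le_rfl
  have hmiss : ∀ x : A, ∃ a, a < S₀.card + 1 ∧ Miss (cay S₀) c₀ x a := fun x =>
    exists_miss c₀ (by rw [dg_cay hsy₀]; omega)
  choose μ hμ1 hμ2 using hmiss
  have hs₁ : s₀ ∈ S₁ := by
    rw [hS₁, mem_filter]
    exact ⟨hs₀, by rw [hπ]; decide⟩
  have hcard₁ : (S₁.erase s₀).card + 1 = S₁.card := Finset.card_erase_add_one hs₁
  -- index of the odd generators
  set idx : A → ℕ := fun a => if h : a ∈ S₁.erase s₀ then ((S₁.erase s₀).equivFin ⟨a, h⟩ : ℕ) else 0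
    with hidx
  have idx_lt : ∀ a ∈ S₁.erase s₀, idx a < (S₁.erase s₀).card := by
    intro a ha
    simp only [hidx, ha, dif_pos]
    exact ((S₁.erase s₀).equivFin ⟨a, ha⟩).2
  have idx_inj : ∀ a ∈ S₁.erase s₀, ∀ b ∈ S₁.erase s₀, idx a = idx b → a = b := by
    intro a ha b hb h
    simp only [hidx, ha, hb, dif_pos] at h
    exact congrArg Subtype.val ((S₁.erase s₀).equivFin.injective (Fin.ext h))
  -- base point and difference
  set bp : A → A := fun x => if π x = 0 then x else x - s₀ with hbp
  set df : A → A → A := fun x y => if π x = 0 then y - x else x - y with hdf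
  have adj_iff : ∀ x y, (cay S).Adj x y ↔ y - x ∈ S := cay_adj hS
  have adj₀ : ∀ x y, (cay S).Adj x y → π x = π y → (cay S₀).Adj (bp x) (bp y) := by
    intro x y h hxy
    rw [adj_iff] at h
    rw [cay_adj hsy₀, hS₀, mem_filter]
    have h1 : bp y - bp x = y - x := by
      simp only [hbp, hxy]
      split_ifs
      · rfl
      · abel
    rw [h1]
    exact ⟨h, by rw [map_sub, hxy, sub_self]⟩
  have hdf_mem : ∀ x y, (cay S).Adj x y → π x ≠ π y → df x y ∈ S₁ := by
    intro x y h hxy
    have h' := h.symm
    rw [adj_iff] at h h'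
    simp only [hdf]
    split_ifs with h0
    · rw [hS₁, mem_filter]
      refine ⟨h, ?_⟩
      rw [map_sub, sub_eq_zero]
      exact fun h2 => hxy h2.symm
    · rw [hS₁, mem_filter]
      refine ⟨h', ?_⟩
      rw [map_sub, sub_eq_zero]
      exact hxy
  have hdf_symm : ∀ x y, π x ≠ π y → df x y = df y x := by
    intro x y hxy
    simp only [hdf]
    rcases z2 (π x) with h1 | h1 <;> rcases z2 (π y) with h2 | h2
    · exact absurd (h1.trans h2.symm) hxy
    · rw [if_pos h1, if_neg (by rw [h2]; decide)]
    · rw [if_neg (by rw [h1]; decide), if_pos h2]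
    · exact absurd (h1.trans h2.symm) hxy
  have hbp_eq : ∀ x y, π x ≠ π y → df x y = s₀ → bp x = bp y := by
    intro x y hxy h
    simp only [hdf] at h
    simp only [hbp]
    rcases z2 (π x) with h1 | h1 <;> rcases z2 (π y) with h2 | h2
    · exact absurd (h1.trans h2.symm) hxy
    · rw [if_pos h1] at h
      rw [if_pos h1, if_neg (by rw [h2]; decide), ← h]
      abel
    · rw [if_neg (by rw [h1]; decide)] at h
      rw [if_neg (by rw [h1]; decide), if_pos h2, ← h]
      abel
    · exact absurd (h1.trans h2.symm) hxy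
  have hdf_inj : ∀ x y y', df x y = df x y' → y = y' := by
    intro x y y' h
    simp only [hdf] at h
    split_ifs at h
    · exact sub_left_injective h
    · exact sub_right_injective h
  refine ⟨fun x y => if π x = π y then c₀ (bp x) (bp y) else
    if df x y = s₀ then μ (bp x) else S₀.card + 1 + idx (df x y), ?_, ?_, ?_⟩
  · intro x y h
    change (if π x = π y then c₀ (bp x) (bp y) else
      if df x y = s₀ then μ (bp x) else S₀.card + 1 + idx (df x y)) < S.card
    by_cases h1 : π x = π y
    · rw [if_pos h1]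
      have := hc₀.lt _ _ (adj₀ x y h h1)
      omega
    · rw [if_neg h1]
      by_cases h2 : df x y = s₀
      · rw [if_pos h2]
        have := hμ1 (bp x)
        omega
      · rw [if_neg h2]
        have h3 : df x y ∈ S₁.erase s₀ := mem_erase.2 ⟨h2, hdf_mem x y h h1⟩
        have := idx_lt _ h3
        omega
  · intro x y h
    change (if π x = π y then c₀ (bp x) (bp y) else
      if df x y = s₀ then μ (bp x) else S₀.card + 1 + idx (df x y)) =
      (if π y = π x then c₀ (bp y) (bp x) else
      if df y x = s₀ then μ (bp y) else S₀.card + 1 + idx (df y x))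
    by_cases h1 : π x = π y
    · rw [if_pos h1, if_pos h1.symm]
      exact hc₀.symm _ _ (adj₀ x y h h1)
    · rw [if_neg h1, if_neg (show ¬ π y = π x from fun h' => h1 h'.symm), hdf_symm x y h1]
      by_cases h2 : df y x = s₀
      · rw [if_pos h2, if_pos h2, hbp_eq x y h1 (by rw [hdf_symm x y h1]; exact h2)]
      · rw [if_neg h2, if_neg h2]
  · intro x y y' h h' heq
    change (if π x = π y then c₀ (bp x) (bp y) else
      if df x y = s₀ then μ (bp x) else S₀.card + 1 + idx (df x y)) =
      (if π x = π y' then c₀ (bp x) (bp y') else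
      if df x y' = s₀ then μ (bp x) else S₀.card + 1 + idx (df x y')) at heq
    have hb : ∀ y y', π y = π y' → bp y = bp y' → y = y' := by
      intro y y' h1 h2
      simp only [hbp, h1] at h2
      split_ifs at h2
      · exact h2
      · exact sub_left_injective h2
    by_cases h1 : π x = π y <;> by_cases h1' : π x = π y'
    · rw [if_pos h1, if_pos h1'] at heq
      exact hb y y' (h1.symm.trans h1') (hc₀.inj _ _ _ (adj₀ x y h h1) (adj₀ x y' h' h1') heq)
    · exfalso
      rw [if_pos h1, if_neg h1'] at heq
      have h3 := adj₀ x y h h1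
      by_cases h2 : df x y' = s₀
      · rw [if_pos h2] at heq
        exact hμ2 (bp x) (bp y) h3 heq
      · rw [if_neg h2] at heq
        have := hc₀.lt _ _ h3
        omega
    · exfalso
      rw [if_neg h1, if_pos h1'] at heq
      have h3 := adj₀ x y' h' h1'
      by_cases h2 : df x y = s₀
      · rw [if_pos h2] at heq
        exact hμ2 (bp x) (bp y') h3 heq.symm
      · rw [if_neg h2] at heq
        have := hc₀.lt _ _ h3
        omega
    · rw [if_neg h1, if_neg h1'] at heq
      by_cases h2 : df x y = s₀ <;> by_cases h2' : df x y' = s₀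
      · exact hdf_inj x y y' (h2.trans h2'.symm)
      · exfalso
        rw [if_pos h2, if_neg h2'] at heq
        have := hμ1 (bp x)
        omega
      · exfalso
        rw [if_neg h2, if_pos h2'] at heq
        have := hμ1 (bp x)
        omega
      · rw [if_neg h2, if_neg h2'] at heq
        refine hdf_inj x y y' (idx_inj _ (mem_erase.2 ⟨h2, hdf_mem x y h h1⟩) _
          (mem_erase.2 ⟨h2', hdf_mem x y' h' h1'⟩) ?_)
        omega

end

end Pool.Agent.U96.CX
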