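import Mathlib
import Pool.Agent.W332.Kd.Reg3
import Pool.Agent.W332.Kd.Thr2

set_option autoImplicit false

/-!
# Evaluation of the relation by toggling an involution (MP_257582_lc)
-/

namespace Pool.Agent.U96.CX

open Finset
open Pool.Agent.W332.Kd
open Pool.Agent.H98R2.Ev (EV toG NE)
open Pool.Agent.H119R2.Kp

section

variable {A : Type} [AddCommGroup A] [Fintype A] [DecidableEq A]

/-- the connection set of a set of pairs -/
noncomputable def SI (I : Finset (Rp A)) : Finset A := I.biUnion fun j => pr j.1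

theorem SI_sy (I : Finset (Rp A)) : Sy (SI I) := part_pr.sy_biUnion I

theorem card_SI (I : Finset (Rp A)) : (SI I).card = ∑ j ∈ I, (pr j.1).card :=
  Finset.card_biUnion fun i _ j _ hij => part_pr.disj i j hij

/-- the number of involutions in `I` -/
noncomputable def iv (I : Finset (Rp A)) : ℕ := (I.filter fun j => -j.1 = j.1).card

theorem card_SI_add (I : Finset (Rp A)) : (SI I).card + iv I = 2 * I.card := by
  rw [card_SI, Finset.sum_congr rfl fun (j : Rp A) _ => card_pr j.1, Finset.sum_ite,
    Finset.sum_const, Finset.sum_const, smul_eq_mul, smul_eq_mul]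
  have h := Finset.card_filter_add_card_filter_not (s := I) (fun j : Rp A => -j.1 = j.1)
  unfold iv
  omega

theorem mem_SI (I : Finset (Rp A)) (j : Rp A) : j.1 ∈ SI I ↔ j ∈ I := by
  unfold SI
  rw [mem_biUnion]
  constructor
  · rintro ⟨i, hi, h⟩
    by_contra hj
    have hij : i ≠ j := fun h' => hj (h' ▸ hi)
    exact Finset.disjoint_left.1 (part_pr.disj i j hij) h ((mem_pr _ _).2 (Or.inl rfl))
  · intro h
    exact ⟨j, h, (mem_pr _ _).2 (Or.inl rfl)⟩

/-- every symmetric connection set is given by a set of pairs -/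
theorem exists_SI {S : Finset A} (hS : Sy S) : ∃ I : Finset (Rp A), SI I = S := by
  refine ⟨univ.filter fun j => j.1 ∈ S, ?_⟩
  ext x
  unfold SI
  rw [mem_biUnion]
  constructor
  · rintro ⟨j, hj, h⟩
    rw [mem_filter] at hj
    rw [mem_pr] at h
    rcases h with rfl | rfl
    · exact hj.2
    · exact hS.neg _ hj.2
  · intro hx
    have hx0 : x ≠ 0 := fun h => hS.zero (h ▸ hx)
    obtain ⟨j, hj⟩ := cover_pr x hx0
    refine ⟨j, ?_, hj⟩
    rw [mem_filter]
    refine ⟨mem_univ _, ?_⟩
    rw [mem_pr] at hj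
    rcases hj with h | h
    · rw [← h]
      exact hx
    · have : j.1 = -x := by rw [h, neg_neg]
      rw [this]
      exact hS.neg _ hx

/-- an odd symmetric set contains an involution -/
theorem exists_inv {S : Finset A} (hS : Sy S) (ho : Odd S.card) : ∃ s ∈ S, -s = s := by
  obtain ⟨I, rfl⟩ := exists_SI hS
  have h := card_SI_add I
  have h1 : iv I ≠ 0 := by
    intro h0
    rw [h0] at h
    obtain ⟨j, hj⟩ := ho
    omega
  unfold iv at h1
  obtain ⟨j, hj⟩ := Finset.card_pos.1 (Nat.pos_of_ne_zero h1)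
  rw [mem_filter] at hj
  exact ⟨j.1, (mem_SI I j).2 hj.1, hj.2⟩

open Classical in
/-- Evaluation by toggling the involution `v`. -/
theorem eval (F : Finset A → Prop) (k c : ℕ) (v : Rp A) (hv : -v.1 = v.1)
    (hrel : ∑ I : Finset (Rp A), (-1 : ℤ) ^ I.card * (if F (SI I) then 1 else 0) = 0)
    (h1 : ∀ S : Finset A, Sy S → k ≤ S.card → F S)
    (h2 : ∀ S : Finset A, Sy S → S.card + 2 ≤ k → ¬ F S)
    (h3 : ∀ S : Finset A, Sy S → v.1 ∈ S → S.card + 1 = k → ¬ F S)
    (h4 : ∀ I : Finset (Rp A), v ∉ I → (SI I).card + 1 = k → I.card = c)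
    (h5 : ∃ S : Finset A, Sy S ∧ v.1 ∉ S ∧ S.card + 1 = k ∧ ¬ F S) : False := by
  -- split the sum
  have hsplit : ∑ I : Finset (Rp A), (-1 : ℤ) ^ I.card * (if F (SI I) then (1 : ℤ) else 0) =
      ∑ I ∈ (univ.erase v).powerset, ((-1 : ℤ) ^ I.card * (if F (SI I) then 1 else 0) -
        (-1 : ℤ) ^ I.card * (if F (SI (insert v I)) then 1 else 0)) := by
    have e1 : (univ : Finset (Finset (Rp A))) = (insert v (univ.erase v)).powerset := by
      rw [Finset.insert_erase (mem_univ v), Finset.powerset_univ]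
    rw [e1, Finset.sum_powerset_insert (Finset.notMem_erase v univ), ← Finset.sum_add_distrib]
    refine Finset.sum_congr rfl fun I hI => ?_
    have hvI : v ∉ I := fun h => Finset.notMem_erase v univ (mem_powerset.1 hI h)
    rw [card_insert_of_notMem hvI, pow_succ]
    ring
  rw [hsplit] at hrel
  have hcard : ∀ I : Finset (Rp A), v ∉ I → (SI (insert v I)).card = (SI I).card + 1 := by
    intro I hI
    rw [card_SI, card_SI, Finset.sum_insert hI, card_pr, if_pos hv, add_comm]
  -- each term
  have hterm : ∀ I ∈ (univ.erase v).powerset, ((-1 : ℤ) ^ I.card * (if F (SI I) then 1 else 0) -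
        (-1 : ℤ) ^ I.card * (if F (SI (insert v I)) then 1 else 0)) =
      -(-1 : ℤ) ^ c * (if (SI I).card + 1 = k ∧ ¬ F (SI I) then 1 else 0) := by
    intro I hI
    have hvI : v ∉ I := fun h => Finset.notMem_erase v univ (mem_powerset.1 hI h)
    have hvS : v.1 ∈ SI (insert v I) := (mem_SI _ v).2 (mem_insert_self v I)
    have hc := hcard I hvI
    rcases Nat.lt_or_ge (SI I).card k with hlt | hge
    · rcases Nat.lt_or_ge ((SI I).card + 1) k with hlt' | hge'
      · have a1 : ¬ F (SI I) := h2 _ (SI_sy I) (by omega)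
        have a2 : ¬ F (SI (insert v I)) := by
          rcases Nat.lt_or_ge ((SI I).card + 2) k with h6 | h6
          · exact h2 _ (SI_sy _) (by omega)
          · exact h3 _ (SI_sy _) hvS (by omega)
        rw [if_neg a1, if_neg a2, if_neg (by omega)]
        ring
      · have h6 : (SI I).card + 1 = k := by omega
        have a2 : F (SI (insert v I)) := h1 _ (SI_sy _) (by omega)
        rw [if_pos a2, h4 I hvI h6]
        by_cases a1 : F (SI I)
        · rw [if_pos a1, if_neg (fun h => h.2 a1)]
          ring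
        · rw [if_neg a1, if_pos ⟨h6, a1⟩]
          ring
    · have a1 : F (SI I) := h1 _ (SI_sy _) hge
      have a2 : F (SI (insert v I)) := h1 _ (SI_sy _) (by omega)
      rw [if_pos a1, if_pos a2, if_neg (by omega)]
      ring
  rw [Finset.sum_congr rfl hterm, ← Finset.mul_sum] at hrel
  have hne : -(-1 : ℤ) ^ c ≠ 0 := neg_ne_zero.2 (pow_ne_zero _ (by norm_num))
  have h0 := (mul_eq_zero.1 hrel).resolve_left hne
  rw [Finset.sum_eq_zero_iff_of_nonneg (fun I _ => by split_ifs <;> norm_num)] at h0
  obtain ⟨S, hS, hvS, hSk, hF⟩ := h5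
  obtain ⟨I, rfl⟩ := exists_SI hS
  have hvI : v ∉ I := fun h => hvS ((mem_SI I v).2 h)
  have h7 := h0 I (by
    rw [mem_powerset]
    intro x hx
    exact mem_erase.2 ⟨fun h => hvI (h ▸ hx), mem_univ _⟩)
  rw [if_pos ⟨hSk, hF⟩] at h7
  exact one_ne_zero h7

end

open Classical in
/-- The relation for a group of translations. -/
theorem rel_tr {n : ℕ} {P : SimpleGraph (Fin n) → Prop} (hn : 2 ≤ n)
    (hP : GP n (n.choose 2 - 1) P) {A : Type} [AddCommGroup A] [Fintype A]
    [DecidableEq A] (hA : Fintype.card A = n) (p : ℕ) [Fact p.Prime] {ι : Type} [Fintype ι]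
    (a : ι → A) (c : A) (hpa : ∀ i, p • a i = 0)
    (hgen : ∀ x : A, trl x ∈ Subgroup.closure (insert (trl c) (Set.range fun i => trl (a i)))) :
    ∑ I : Finset (Rp A), (-1 : ℤ) ^ I.card * (if PV P A (cay (SI I)) then 1 else 0) = 0 := by
  refine relC hn hP hA p (fun i => trl (a i)) (trl c) ?_ ?_ ?_ (fun j : Rp A => pr j.1) part_pr
    ?_ ?_ ?_
  · intro i j
    rw [← trl_add, ← trl_add, add_comm]
  · intro i
    rw [← trl_nsmul, hpa, trl_zero]
  · intro i
    have : (trl c)⁻¹ * trl (a i) * trl c = trl (a i) := by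
      rw [mul_assoc, ← trl_add, add_comm, trl_add, inv_mul_cancel_left]
    rw [this]
    exact Subgroup.subset_closure ⟨i, rfl⟩
  · intro j i u v h
    change (v + a i) - (u + a i) ∈ _
    rwa [add_sub_add_right_eq_sub]
  · intro j u v h
    change (v + c) - (u + c) ∈ _
    rwa [add_sub_add_right_eq_sub]
  · intro j u v u' v' h h'
    rw [mem_pr] at h h'
    have hcase : v' - u' = v - u ∨ v' - u' = -(v - u) := by
      rcases h with h | h <;> rcases h' with h' | h' <;> rw [h, h']
      · exact Or.inl rfl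
      · exact Or.inr rfl
      · exact Or.inr (neg_neg _).symm
      · exact Or.inl rfl
    rcases hcase with h1 | h1
    · refine ⟨trl (u' - u), hgen _, Or.inl ⟨?_, ?_⟩⟩
      · change u + (u' - u) = u'
        abel
      · change v + (u' - u) = v'
        have : v' = (v' - u') + u' := by abel
        rw [this, h1]
        abel
    · refine ⟨trl (v' - u), hgen _, Or.inr ⟨?_, ?_⟩⟩
      · change u + (v' - u) = v'
        abel
      · change v + (v' - u) = u'
        have : v' = (v' - u') + u' := by abel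
        rw [this, h1]
        abel

end Pool.Agent.U96.CX
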