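import Mathlib
import Pool.Agent.U96.CX.Class1
import Pool.Agent.U96.CX.Eval
import Pool.Agent.W332.Kd.Wr

set_option autoImplicit false

/-!
# Chromatic index: the three cases for an even number of vertices (MP_257582_lc)
-/

namespace Pool.Agent.U96.CX

open Finset
open Pool.Agent.W332.Kd hiding z2
open Pool.Agent.H98R2.Ev (EV toG NE)
open Pool.Agent.H119R2.Kp
open Pool.Q11.TwoEnd (PC EC Miss)
open Pool.Q6.CI (dg vizing exists_miss)

/-- the hypothesis: a property between maximum degree at least `k` and chromatic index at least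
`k` -/
structure Btw (n k : ℕ) (P : SimpleGraph (Fin n) → Prop) : Prop where
  gp : GP n (n.choose 2 - 1) P
  low : ∀ G : SimpleGraph (Fin n), (∃ v, k ≤ (G.neighborSet v).ncard) → P G
  upp : ∀ G : SimpleGraph (Fin n), P G → ¬ EC G (k - 1)

section

variable {n k : ℕ} {P : SimpleGraph (Fin n) → Prop}

theorem Btw.mem (hP : Btw n k P) (hn : 0 < n) {A : Type} [AddCommGroup A] [Fintype A]
    (hA : Fintype.card A = n) {S : Finset A} (hS : Sy S) (hk : k ≤ S.card) :
    PV P A (cay S) := by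
  have e : A ≃ Fin n := Fintype.equivFinOfCardEq hA
  refine ⟨e, hP.low _ ⟨⟨0, hn⟩, ?_⟩⟩
  rw [((cay_Reg hS).map e) ⟨0, hn⟩]
  exact hk

theorem Btw.nmem (hP : Btw n k P) {A : Type} [AddCommGroup A] [Fintype A]
    {S : Finset A} (h : EC (cay S) (k - 1)) : ¬ PV P A (cay S) := by
  rintro ⟨e, he⟩
  exact hP.upp _ he (EC_map h e)

end

theorem inv_mem_Rp {A : Type} [AddCommGroup A] [Fintype A] [DecidableEq A] {a : A} (ha : a ≠ 0)
    (h : -a = a) : a ∈ Rp A := by
  rw [mem_Rp]
  exact ⟨ha, by rw [h]⟩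

/-- parity as a homomorphism of additive groups -/
def parA {m : ℕ} (hm : 2 ∣ m) : ZMod m →+ ZMod 2 := (par hm).toAddMonoidHom

theorem parA_apply {m : ℕ} [NeZero m] (hm : 2 ∣ m) (x : ZMod m) :
    parA hm x = ((x.val : ℕ) : ZMod 2) := by
  change ZMod.castHom hm (ZMod 2) x = _
  conv_lhs => rw [← ZMod.natCast_zmod_val x]
  rw [map_natCast]

theorem parA_one {m : ℕ} (hm : 2 ∣ m) : parA hm 1 = 1 := map_one (par hm)

theorem neg_one_z2 : (-1 : ZMod 2) = 1 := by decide

/-- `k` odd -/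
theorem case_k_odd {n k : ℕ} {P : SimpleGraph (Fin n) → Prop} (hP : Btw n k P) (hn : 2 ≤ n)
    (he : Even n) (hk : Odd k) (hk3 : 3 ≤ k) (hkn : k + 1 ≤ n) : False := by
  classical
  have : NeZero n := ⟨by omega⟩
  have : Fact (Nat.Prime 2) := ⟨Nat.prime_two⟩
  obtain ⟨h, hh⟩ := he
  obtain ⟨l, hl⟩ := hk
  have hcr := crc_inv_sy (n := n) (k := l) ⟨h, hh⟩ (by omega)
  have hsy := crc_sy (n := n) (k := l) (by omega)
  have hcc := crc_card (n := n) (k := l) (by omega)
  set v0 : ZMod n := ((n / 2 : ℕ) : ZMod n) with hv0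
  have hval : v0.val = n / 2 := by
    rw [hv0, ZMod.val_natCast, Nat.mod_eq_of_lt (by omega)]
  have hv1 : v0 ≠ 0 := by
    intro h0
    rw [h0, ZMod.val_zero] at hval
    omega
  have hv2 : -v0 = v0 := by
    rw [ZMod.neg_eq_self_iff]
    right
    omega
  have huniq : ∀ x : ZMod n, x ≠ 0 → -x = x → x = v0 := by
    intro x hx hx'
    rw [ZMod.neg_eq_self_iff] at hx'
    apply ZMod.val_injective n
    rw [hval]
    have := hx'.resolve_left hx
    omega
  let v : Rp (ZMod n) := ⟨v0, inv_mem_Rp hv1 hv2⟩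
  have hiv0 : ∀ I : Finset (Rp (ZMod n)), v ∉ I → iv I = 0 := by
    intro I hI
    unfold iv
    rw [Finset.card_eq_zero, Finset.filter_eq_empty_iff]
    intro j hj hj'
    apply hI
    have : j = v := Subtype.ext (huniq j.1 ((mem_Rp _).1 j.2).1 hj')
    rwa [← this]
  have hiv1 : ∀ I : Finset (Rp (ZMod n)), v ∈ I → iv I = 1 := by
    intro I hI
    unfold iv
    rw [Finset.card_eq_one]
    refine ⟨v, ?_⟩
    ext j
    rw [mem_filter, mem_singleton]
    constructor
    · rintro ⟨hj, hj'⟩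
      exact Subtype.ext (huniq j.1 ((mem_Rp _).1 j.2).1 hj')
    · rintro rfl
      exact ⟨hI, hv2⟩
  have hrel := rel_tr hn hP.gp (A := ZMod n) (ZMod.card n) 2 (ι := Empty) (fun i => i.elim) 1
    (fun i => i.elim) (gen_cyc _)
  refine eval (fun S => PV P (ZMod n) (cay S)) k l v hv2 hrel ?_ ?_ ?_ ?_ ?_
  · intro S hS hc
    exact hP.mem (by omega) (ZMod.card n) hS hc
  · intro S hS hc
    exact hP.nmem (EC_cay hS (by omega))
  · intro S hS hvS hc
    exfalso
    obtain ⟨I, rfl⟩ := exists_SI hS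
    have h1 := card_SI_add I
    rw [hiv1 I ((mem_SI I v).1 hvS)] at h1
    omega
  · intro I hI hc
    have h1 := card_SI_add I
    rw [hiv0 I hI] at h1
    omega
  · refine ⟨crc n l, hsy, ?_, by omega, hP.nmem ?_⟩
    · intro hmem
      have h1 := hcr.2
      rw [Finset.insert_eq_of_mem hmem] at h1
      omega
    · have h1 : (1 : ZMod n) ∈ crc n l := by
        rw [mem_crc]
        exact ⟨1, ⟨le_refl _, by omega⟩, Or.inl (by push_cast; rfl)⟩
      have h2 := EC_class1 (parA (show 2 ∣ n by omega)) hsy h1 (parA_one _)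
      rw [hcc] at h2
      rwa [show k - 1 = 2 * l by omega]

/-- `k` even, `4 ∣ n` -/
theorem case_four_dvd {n k : ℕ} {P : SimpleGraph (Fin n) → Prop} (hP : Btw n k P) (hn : 2 ≤ n)
    (h4 : 4 ∣ n) (hk : Even k) (hk2 : 2 ≤ k) (hkn : k + 1 ≤ n) : False := by
  classical
  obtain ⟨r, hr⟩ := h4
  have hr0 : 0 < r := by omega
  have : NeZero (2 * r) := ⟨by omega⟩
  have : Fact (Nat.Prime 2) := ⟨Nat.prime_two⟩
  have hcard : Fintype.card (ZMod 2 × ZMod (2 * r)) = n := by
    rw [Fintype.card_prod, ZMod.card, ZMod.card, hr]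
    ring
  have hinv : inv (ZMod 2 × ZMod (2 * r)) = 3 := by
    have := inv_add_one (ZMod 2 × ZMod (2 * r))
    rw [tor_prod, tor_even (by decide), tor_even (even_two_mul r)] at this
    omega
  have hrel := rel_tr hn hP.gp (A := ZMod 2 × ZMod (2 * r)) hcard 2 (ι := Unit)
    (fun _ => (1, 0)) (0, 1)
    (by
      intro _
      rw [Prod.smul_mk, smul_zero]
      exact Prod.ext (two_nsmul_zmod 1) rfl)
    (by
      rintro ⟨x, y⟩
      have h1 : ((x, y) : ZMod 2 × ZMod (2 * r)) =
          x.val • ((1, 0) : ZMod 2 × ZMod (2 * r)) + y.val • ((0, 1) : ZMod 2 × ZMod (2 * r)) := by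
        rw [Prod.smul_mk, Prod.smul_mk, smul_zero, smul_zero, Prod.mk_add_mk, zero_add, add_zero,
          nsmul_eq_mul, mul_one, nsmul_eq_mul, mul_one, ZMod.natCast_zmod_val,
          ZMod.natCast_zmod_val]
      rw [h1, trl_add, trl_nsmul, trl_nsmul]
      refine Subgroup.mul_mem _ (Subgroup.pow_mem _ (Subgroup.subset_closure ?_) _)
        (Subgroup.pow_mem _ (Subgroup.subset_closure (Set.mem_insert _ _)) _)
      exact Set.mem_insert_of_mem _ ⟨(), rfl⟩)
  obtain ⟨κ, hκ1, hκ2, hκ3⟩ := Rp_count (A := ZMod 2 × ZMod (2 * r))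
  rw [hinv, hcard] at hκ1
  rw [hinv] at hκ3
  -- the two involutions
  have hv1 : ((1, 0) : ZMod 2 × ZMod (2 * r)) ≠ 0 := fun h0 =>
    absurd (congrArg Prod.fst h0) (by simp)
  have hv2 : -((1, 0) : ZMod 2 × ZMod (2 * r)) = (1, 0) :=
    Prod.ext neg_one_z2 (neg_zero)
  have hval : ((r : ℕ) : ZMod (2 * r)).val = r := by
    rw [ZMod.val_natCast, Nat.mod_eq_of_lt (by omega)]
  have hw1 : ((1, ((r : ℕ) : ZMod (2 * r))) : ZMod 2 × ZMod (2 * r)) ≠ 0 := fun h0 =>
    absurd (congrArg Prod.fst h0) (by simp)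
  have hw2 : -((1, ((r : ℕ) : ZMod (2 * r))) : ZMod 2 × ZMod (2 * r)) = (1, ((r : ℕ) : ZMod (2 * r))) := by
    refine Prod.ext neg_one_z2 ?_
    change -((r : ℕ) : ZMod (2 * r)) = (r : ℕ)
    rw [ZMod.neg_eq_self_iff]
    right
    rw [hval]
  let v : Rp (ZMod 2 × ZMod (2 * r)) := ⟨(1, 0), inv_mem_Rp hv1 hv2⟩
  let w : Rp (ZMod 2 × ZMod (2 * r)) := ⟨(1, ((r : ℕ) : ZMod (2 * r))), inv_mem_Rp hw1 hw2⟩
  have hvw : v ≠ w := by
    intro h0
    have h1 : (0 : ZMod (2 * r)) = (r : ℕ) := congrArg (fun j : Rp _ => j.1.2) h0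
    have h2 := congrArg ZMod.val h1
    rw [hval, ZMod.val_zero] at h2
    omega
  let π : ZMod 2 × ZMod (2 * r) →+ ZMod 2 := AddMonoidHom.fst _ _
  obtain ⟨l, hl⟩ := hk
  refine eval (fun S => PV P (ZMod 2 × ZMod (2 * r)) (cay S)) k l v hv2 hrel ?_ ?_ ?_ ?_ ?_
  · intro S hS hc
    exact hP.mem (by omega) hcard hS hc
  · intro S hS hc
    exact hP.nmem (EC_cay hS (by omega))
  · intro S hS hvS hc
    have h1 := EC_class1 π hS hvS rfl
    refine hP.nmem ?_
    rwa [show k - 1 = S.card by omega]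
  · intro I hI hc
    have h1 := card_SI_add I
    have h2 : iv I ≤ 2 := by
      unfold iv
      have h3 : (I.filter fun j => -j.1 = j.1) ⊆
          (univ.filter fun j : Rp (ZMod 2 × ZMod (2 * r)) => -j.1 = j.1).erase v := by
        intro j hj
        rw [mem_filter] at hj
        rw [mem_erase, mem_filter]
        exact ⟨fun h => hI (h ▸ hj.1), mem_univ _, hj.2⟩
      have h4 := Finset.card_le_card h3
      have h5 : v ∈ univ.filter fun j : Rp (ZMod 2 × ZMod (2 * r)) => -j.1 = j.1 :=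
        mem_filter.2 ⟨mem_univ _, hv2⟩
      rw [Finset.card_erase_of_mem h5, hκ3] at h4
      exact h4
    omega
  · obtain ⟨I', hI', hc'⟩ := Finset.exists_subset_card_eq
      (s := univ.filter fun j : Rp (ZMod 2 × ZMod (2 * r)) => ¬ -j.1 = j.1) (n := l - 1)
      (by rw [hκ2]; omega)
    have hwI : w ∉ I' := fun h => (mem_filter.1 (hI' h)).2 hw2
    have hvI : v ∉ I' := fun h => (mem_filter.1 (hI' h)).2 hv2
    have hiv : iv (insert w I') = 1 := by
      unfold iv
      rw [Finset.card_eq_one]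
      refine ⟨w, ?_⟩
      ext j
      rw [mem_filter, mem_singleton, mem_insert]
      constructor
      · rintro ⟨hj | hj, hj'⟩
        · exact hj
        · exact absurd hj' (mem_filter.1 (hI' hj)).2
      · rintro rfl
        exact ⟨Or.inl rfl, hw2⟩
    have hc := card_SI_add (insert w I')
    rw [hiv, card_insert_of_notMem hwI, hc'] at hc
    refine ⟨SI (insert w I'), SI_sy _, ?_, by omega, hP.nmem ?_⟩
    · rw [mem_SI, mem_insert]
      rintro (h | h)
      · exact hvw h
      · exact hvI h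
    · have h1 := EC_class1 π (SI_sy (insert w I')) ((mem_SI _ w).2 (mem_insert_self w I')) rfl
      rwa [show k - 1 = (SI (insert w I')).card by omega]

/-- `k` even, `n ≡ 2 (mod 4)` -/
theorem case_two_mod_four {n k : ℕ} {P : SimpleGraph (Fin n) → Prop} (hP : Btw n k P) (hn : 2 ≤ n)
    (he : Even n) (h4 : ¬ 4 ∣ n) (hk : Even k) (hk2 : 2 ≤ k) (hkn : k + 1 ≤ n) : False := by
  classical
  obtain ⟨l, hl⟩ := hk
  set t := k - 1 with ht
  have hto : Odd t := ⟨l - 1, by omega⟩
  have hnd : ¬ n ∣ t + 1 := fun h => absurd (Nat.le_of_dvd (by omega) h) (by omega)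
  rw [Nat.dvd_iff_prime_pow_dvd_dvd] at hnd
  push Not at hnd
  obtain ⟨p, b, hp, h1, h2⟩ := hnd
  have hpo : Odd p := by
    refine hp.odd_of_ne_two ?_
    rintro rfl
    apply h2
    have hb : b ≤ 1 := by
      by_contra hb
      apply h4
      refine dvd_trans ?_ h1
      exact pow_dvd_pow 2 (show 2 ≤ b by omega)
    refine dvd_trans (pow_dvd_pow 2 hb) ?_
    rw [pow_one]
    obtain ⟨j, hj⟩ := hto
    exact ⟨j + 1, by omega⟩
  have hb : 0 < b := by
    rcases Nat.eq_zero_or_pos b with h | h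
    · exfalso
      apply h2
      rw [h, pow_zero]
      exact one_dvd _
    · exact h
  obtain ⟨m, hm⟩ := h1
  have hm' : m * p ^ b = n := by rw [hm, mul_comm]
  have hme : Even m := by
    rw [hm, Nat.even_mul] at he
    exact he.resolve_left (Nat.not_even_iff_odd.2 hpo.pow)
  have hm0 : m ≠ 0 := by
    rintro rfl
    omega
  have : NeZero m := ⟨hm0⟩
  have : Fact p.Prime := ⟨hp⟩
  have : NeZero p := ⟨hp.ne_zero⟩
  have hcard : Fintype.card (ZMod m × EE b p) = n := by
    rw [Fintype.card_prod, ZMod.card, card_EE, hm']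
  refine wreath hn hP.gp hpo hb hme hm' t (fun S hS => ?_) (by omega) h2
  constructor
  · intro hmem
    by_contra hc
    refine hP.nmem ?_ hmem
    rcases Nat.lt_or_ge (S.card + 1) k with h5 | h5
    · exact EC_cay hS (by omega)
    · have h6 : S.card = k - 1 := by omega
      obtain ⟨s, hs, hss⟩ := exists_inv hS (by rw [h6]; exact hto)
      have hs2 : s.2 = 0 := by
        funext i
        have h7 : -(s.2 i) = s.2 i := congrFun (congrArg Prod.snd hss) i
        rw [ZMod.neg_eq_self_iff] at h7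
        refine h7.resolve_right fun h8 => ?_
        obtain ⟨q, hq⟩ := hpo
        omega
      have hs1 : s.1 ≠ 0 := fun h8 => hS.zero (by
        have : s = 0 := Prod.ext h8 hs2
        rwa [← this])
      have h9 : -s.1 = s.1 := congrArg Prod.fst hss
      rw [ZMod.neg_eq_self_iff] at h9
      have h10 := h9.resolve_left hs1
      have h11 : Odd s.1.val := by
        rw [← Nat.not_even_iff_odd]
        rintro ⟨q, hq⟩
        apply h4
        rw [← hm', ← h10, hq]
        exact ⟨q * p ^ b, by ring⟩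
      have h12 := EC_class1 ((parA hme.two_dvd).comp (AddMonoidHom.fst (ZMod m) (EE b p))) hS hs (by
        change parA hme.two_dvd s.1 = 1
        rw [parA_apply, ZMod.natCast_eq_one_iff_odd]
        exact h11)
      rwa [h6] at h12
  · intro hc
    exact hP.mem (by omega) hcard hS (by omega)

/-- complete graphs with an even number of vertices -/
theorem EC_top {n : ℕ} (hn : 2 ≤ n) (he : Even n) : EC (⊤ : SimpleGraph (Fin n)) (n - 1) := by
  classical
  have : NeZero n := ⟨by omega⟩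
  have : Fact (1 < n) := ⟨by omega⟩
  have e : ZMod n ≃ Fin n := Fintype.equivFinOfCardEq (ZMod.card n)
  set S : Finset (ZMod n) := univ.erase 0 with hS
  have hsy : Sy S := by
    constructor
    · simp [hS]
    · intro a ha
      rw [hS, mem_erase] at ha ⊢
      exact ⟨neg_ne_zero.2 ha.1, mem_univ _⟩
  have hc : S.card = n - 1 := by
    rw [hS, Finset.card_erase_of_mem (mem_univ _), Finset.card_univ, ZMod.card]
  have h1 : (1 : ZMod n) ∈ S := by
    rw [hS, mem_erase]
    exact ⟨one_ne_zero, mem_univ _⟩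
  have h2 := EC_class1 (parA he.two_dvd) hsy h1 (parA_one _)
  rw [hc] at h2
  refine (EC_map h2 e).mono ?_
  intro x y hxy
  rw [SimpleGraph.map_adj]
  refine ⟨e.symm x, e.symm y, ?_, by simp, by simp⟩
  rw [cay_adj hsy, hS, mem_erase]
  refine ⟨?_, mem_univ _⟩
  rw [sub_ne_zero]
  exact fun h => hxy (e.symm.injective h).symm

/-- **`n` even.** -/
theorem even_case {n k : ℕ} {P : SimpleGraph (Fin n) → Prop} (hP : Btw n k P) (hn : 2 ≤ n)
    (he : Even n) (hk : 2 ≤ k) (hex : ∃ G, P G) : False := by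
  have hkn : k + 1 ≤ n := by
    by_contra hcon
    obtain ⟨G, hG⟩ := hex
    refine hP.upp G hG ?_
    exact Pool.Q6.CI.EC.mono_right ((EC_top hn he).mono le_top) (by omega)
  rcases Nat.even_or_odd k with hke | hko
  · by_cases h4 : 4 ∣ n
    · exact case_four_dvd hP hn h4 hke hk hkn
    · exact case_two_mod_four hP hn he h4 hke hk hkn
  · refine case_k_odd hP hn he hko ?_ hkn
    obtain ⟨l, hl⟩ := hko
    omega

end Pool.Agent.U96.CX
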